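import Pool.Agent.Lib.MP_a127ec_co.AbAll

namespace Pool.Agent.Results.MP_a127ec_co.AbelianSymmetry

open Pool.Agent.MP_a127ec_co

/-- A cubic Lehman graph with `k = 1` (type `(3 s - 1, 3, s)`) on which a commutative group `G` acts by automorphisms
preserving rows and columns (by `ρ` on the rows, by `τ` on the columns), with at most two orbits of rows (every row is
in the orbit of `i₁` or of `i₂`), contains a 4-cycle. -/
theorem result {n s : ℕ} {A B : Matrix (Fin n) (Fin n) ℤ} (h : IsLehmanPair n 3 s A B)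
    (hk : (3 : ℤ) * s - n = 1) {G : Type*} [CommGroup G] (ρ τ : G →* Equiv.Perm (Fin n))
    (hA : ∀ g i x, A (ρ g i) (τ g x) = A i x) (ho : ∃ i₁ i₂, ∀ i, ∃ g, ρ g i₁ = i ∨ ρ g i₂ = i) :
    (biadjGraph A).egirth < 6 :=
  not_le.mp (Ab.main_two h hk ρ τ hA ho)

end Pool.Agent.Results.MP_a127ec_co.AbelianSymmetry
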