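import Pool.Agent.Lib.MP_a127ec_co.Graph

namespace Pool.Agent.Results.MP_a127ec_co.GirthEight

open Pool.Agent.MP_a127ec_co

/-- A cubic Lehman graph with `k = 1` (type `(3 s - 1, 3, s)`, any `s`) that has girth at least
six has girth at least eight: girth exactly six never occurs. -/
theorem result (n s : ℕ) (A B : Matrix (Fin n) (Fin n) ℤ) (h : IsLehmanPair n 3 s A B)
    (hk : (3 : ℤ) * s - n = 1) (hg : 6 ≤ (biadjGraph A).egirth) :
    8 ≤ (biadjGraph A).egirth :=
  girth_eight h hk hg

end Pool.Agent.Results.MP_a127ec_co.GirthEight
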