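import Pool.Agent.Lib.MP_a127ec_co.Glue4

/-!
# Gluing cubic Lehman graphs along a 4-cycle

Two cubic Lehman graphs with `k = 1` can be glued along a 4-cycle of each. The 4-cycles along which
they are glued disappear and no new ones arise. So the question whether there is a cubic Lehman
graph with `k = 1` without 4-cycles is the question whether there is one with at most one 4-cycle.
-/

open Finset Matrix

namespace Pool.Agent.Results.MP_a127ec_co.Gluing

open Pool.Agent.MP_a127ec_co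

/-- `HasLehman n s c`: there is a cubic Lehman graph with `k = 1`, of type `(n, 3, s)`, with exactly
`c` 4-cycles. Gluing: from two such graphs, of types `(n₁, 3, s₁)` and `(n₂, 3, s₂)` with `c₁ + 1`
and `c₂ + 1` 4-cycles, one gets one of type `(n₁ + n₂ - 2, 3, s₁ + s₂ - 1)` with `c₁ + c₂` 4-cycles.
Hence there is a cubic Lehman graph with `k = 1` of girth at least six if and only if there is one
with at most one 4-cycle. -/
theorem result :
    (∀ n₁ s₁ c₁ n₂ s₂ c₂ : ℕ, HasLehman n₁ s₁ (c₁ + 1) → HasLehman n₂ s₂ (c₂ + 1) →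
      HasLehman (n₁ + n₂ - 2) (s₁ + s₂ - 1) (c₁ + c₂)) ∧
    ((∃ (n s : ℕ) (A B : Matrix (Fin n) (Fin n) ℤ), IsLehmanPair n 3 s A B ∧
        (3 : ℤ) * s - n = 1 ∧ 6 ≤ (biadjGraph A).egirth) ↔
      ∃ n s c : ℕ, c ≤ 1 ∧ HasLehman n s c) := by
  refine ⟨fun n₁ s₁ c₁ n₂ s₂ c₂ h₁ h₂ => hasLehman_glue h₁ h₂, ⟨?_, ?_⟩⟩
  · rintro ⟨n, s, A, B, h1, h2, h3⟩
    exact ⟨n, s, 0, by omega, A, B, h1, h2, (four_eq_zero_iff A).2 h3⟩
  · rintro ⟨n, s, c, hc, h⟩
    have key : ∀ n s : ℕ, HasLehman n s 0 → ∃ (n s : ℕ) (A B : Matrix (Fin n) (Fin n) ℤ),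
        IsLehmanPair n 3 s A B ∧ (3 : ℤ) * s - n = 1 ∧ 6 ≤ (biadjGraph A).egirth := by
      rintro n s ⟨A, B, h1, h2, h3⟩
      exact ⟨n, s, A, B, h1, h2, (four_eq_zero_iff A).1 h3⟩
    obtain rfl | rfl : c = 0 ∨ c = 1 := by omega
    · exact key n s h
    · exact key _ _ (hasLehman_glue (c₁ := 0) (c₂ := 0) h h)

end Pool.Agent.Results.MP_a127ec_co.Gluing
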