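import Pool.Agent.Lib.MP_a127ec_co.Chain

/-!
Rows of `A` are the lines, its columns the points. `diffSet B i j` is the set of the columns `t` with `B i t = 1`, `B j t = 0`.
The structure behind it (the rows whose set is disjoint from that of `l` form a ring) was found independently by helper4,
helper57 and helper89.
-/

namespace Pool.Agent.Results.MP_a127ec_co.SmallCase

open Pool.Agent.MP_a127ec_co

/-- A cubic Lehman graph with `k = 1` and without 4-cycles has `n ≥ 38`: for every row `l` there is a chain of rows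
`a, b, c, d`, disjoint from `l` in `B`, whose three consecutive differences have at least four elements and add up to
`s - 1 = (n - 2) / 3`. -/
theorem result (n s : ℕ) (A B : Matrix (Fin n) (Fin n) ℤ) (h : IsLehmanPair n 3 s A B)
    (hk : (3 : ℤ) * s - n = 1) (hg : 6 ≤ (biadjGraph A).egirth) :
    38 ≤ n ∧
    ∀ l : Fin n, ∃ x y z a b c d : Fin n, A l x = 1 ∧ A l y = 1 ∧ A l z = 1 ∧ B l x = 0 ∧ y ≠ z ∧
      A a x = 1 ∧ A d x = 1 ∧ A b y = 1 ∧ B b y = 0 ∧ A c z = 1 ∧ B c z = 0 ∧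
      a ≠ l ∧ b ≠ l ∧ c ≠ l ∧ d ≠ l ∧ a ≠ b ∧ a ≠ c ∧ a ≠ d ∧ b ≠ c ∧ b ≠ d ∧ c ≠ d ∧
      (∀ t, B l t = 1 → B a t = 0 ∧ B b t = 0 ∧ B c t = 0 ∧ B d t = 0) ∧
      4 ≤ (diffSet B a b).card ∧ 4 ≤ (diffSet B b c).card ∧ 4 ≤ (diffSet B c d).card ∧
      (diffSet B a b).card + (diffSet B b c).card + (diffSet B c d).card + 1 = s := by
  have h4 := noFour_of_girth hg
  have hC : ∀ l : Fin n, ∃ x y z a b c d : Fin n, A l x = 1 ∧ A l y = 1 ∧ A l z = 1 ∧ B l x = 0 ∧ y ≠ z ∧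
      A a x = 1 ∧ A d x = 1 ∧ A b y = 1 ∧ B b y = 0 ∧ A c z = 1 ∧ B c z = 0 ∧
      a ≠ l ∧ b ≠ l ∧ c ≠ l ∧ d ≠ l ∧ a ≠ b ∧ a ≠ c ∧ a ≠ d ∧ b ≠ c ∧ b ≠ d ∧ c ≠ d ∧
      (∀ t, B l t = 1 → B a t = 0 ∧ B b t = 0 ∧ B c t = 0 ∧ B d t = 0) ∧
      4 ≤ (diffSet B a b).card ∧ 4 ≤ (diffSet B b c).card ∧ 4 ≤ (diffSet B c d).card ∧
      (diffSet B a b).card + (diffSet B b c).card + (diffSet B c d).card + 1 = s := by
    intro l
    obtain ⟨x, y, z, a, b, c, d, h1, h2, h3, h5, h6, h7, h8, h9, h10, h11, h12, al, bl, cl, dl, ab, ac, ad, bc, bd, cd, hd, hs⟩ :=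
      chain h hk h4 l
    exact ⟨x, y, z, a, b, c, d, h1, h2, h3, h5, h6, h7, h8, h9, h10, h11, h12, al, bl, cl, dl, ab, ac, ad, bc, bd, cd, hd,
      four_le h hk h4 ab al bl (fun t ht => (hd t ht).1) (fun t ht => (hd t ht).2.1),
      four_le h hk h4 bc bl cl (fun t ht => (hd t ht).2.1) (fun t ht => (hd t ht).2.2.1),
      four_le h hk h4 cd cl dl (fun t ht => (hd t ht).2.2.1) (fun t ht => (hd t ht).2.2.2), hs⟩
  obtain ⟨x, y, z, a, b, c, d, -, -, -, -, -, -, -, -, -, -, -, -, -, -, -, -, -, -, -, -, -, -, e1, e2, e3, e4⟩ :=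
    hC ⟨0, by have := h.two_le; omega⟩
  exact ⟨by omega, hC⟩

end Pool.Agent.Results.MP_a127ec_co.SmallCase
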